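import Pool.Agent.Lib_MP_13305e.Semi

set_option autoImplicit false

/-!
The actions of a Hopf algebra on `X ⊗ Y`, on `Hom(X, Y)` and on `X*`.
-/

namespace Pool.Agent.Lib_MP_13305e

open Module TensorProduct Coalgebra

section actions

variable {k H : Type*} [Field k] [Ring H] [HopfAlgebra k H]
variable (X Y : Type*) [AddCommGroup X] [Module k X] [Module H X] [IsScalarTower k H X]
  [AddCommGroup Y] [Module k Y] [Module H Y] [IsScalarTower k H Y]

/-- The action of a bialgebra `H` on the tensor product `X ⊗ Y` of two modules, through the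
comultiplication: `h (x ⊗ y) = ∑ h₁ x ⊗ h₂ y`. -/
noncomputable def tensAct : H →ₐ[k] Module.End k (X ⊗[k] Y) :=
  (Module.endTensorEndAlgHom (R := k) (S := k) (A := k) (M := X) (N := Y)).comp
    ((Algebra.TensorProduct.map (Algebra.lsmul k k X) (Algebra.lsmul k k Y)).comp
      (Bialgebra.comulAlgHom k H))

variable {X Y}

theorem tensAct_tmul {ι : Type*} {h : H} (r : Repr k h ι) (x : X) (y : Y) :
    tensAct X Y h (x ⊗ₜ[k] y) = ∑ i ∈ r.index, (r.left i • x) ⊗ₜ[k] (r.right i • y) := by
  have h1 : Bialgebra.comulAlgHom k H h = ∑ i ∈ r.index, r.left i ⊗ₜ[k] r.right i := r.eq.symm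
  simp only [tensAct, AlgHom.comp_apply, h1, map_sum, Algebra.TensorProduct.map_tmul,
    Module.endTensorEndAlgHom_apply, LinearMap.sum_apply]
  rfl

variable (X Y)

/-- post-composition with the action of `h` -/
noncomputable def postAct : H →ₐ[k] Module.End k (X →ₗ[k] Y) :=
  AlgHom.ofLinearMap
    (LinearMap.mk₂ k (fun h (f : X →ₗ[k] Y) => (Algebra.lsmul k k Y h) ∘ₗ f)
      (fun a b f => by ext; simp [add_smul]) (fun c a f => by ext; simp)
      (fun a f g => by ext; simp)
      (fun c a f => by ext x; exact smul_comm _ _ _))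
    (by ext; simp) (fun a b => by ext; simp [mul_smul])

/-- pre-composition with the action of `S(h)` -/
noncomputable def preAct (X Z : Type*) [AddCommGroup X] [Module k X] [Module H X]
    [IsScalarTower k H X] [AddCommGroup Z] [Module k Z] : H →ₐ[k] Module.End k (X →ₗ[k] Z) :=
  AlgHom.ofLinearMap
    (LinearMap.mk₂ k (fun h (f : X →ₗ[k] Z) =>
        f ∘ₗ (Algebra.lsmul k k X (HopfAlgebra.antipode k h)))
      (fun a b f => by ext; simp [add_smul]) (fun c a f => by ext; simp)
      (fun a f g => by ext; simp) (fun c a f => by ext; simp))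
    (by ext; simp) (fun a b => by ext; simp [HopfAlgebra.antipode_mul_antidistrib, mul_smul])

theorem postAct_apply (h : H) (f : X →ₗ[k] Y) (x : X) : postAct X Y h f x = h • f x := rfl

theorem preAct_apply {X Z : Type*} [AddCommGroup X] [Module k X] [Module H X]
    [IsScalarTower k H X] [AddCommGroup Z] [Module k Z] (h : H) (f : X →ₗ[k] Z) (x : X) :
    preAct X Z h f x = f (HopfAlgebra.antipode k h • x) := rfl

/-- The action of a Hopf algebra `H` on `Hom_k(X, Y)`: `(h f)(x) = ∑ h₁ f(S(h₂) x)`. -/
noncomputable def homAct : H →ₐ[k] Module.End k (X →ₗ[k] Y) :=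
  (Algebra.TensorProduct.lift (postAct X Y) (preAct X Y)
    (fun a b => by
      refine LinearMap.ext fun f => LinearMap.ext fun x => ?_
      rfl)).comp (Bialgebra.comulAlgHom k H)

variable {X Y}

theorem homAct_apply {ι : Type*} {h : H} (r : Repr k h ι) (f : X →ₗ[k] Y) (x : X) :
    homAct X Y h f x = ∑ i ∈ r.index, r.left i • f (HopfAlgebra.antipode k (r.right i) • x) := by
  have h1 : Bialgebra.comulAlgHom k H h = ∑ i ∈ r.index, r.left i ⊗ₜ[k] r.right i := r.eq.symm
  simp only [homAct, AlgHom.comp_apply, h1, map_sum, Algebra.TensorProduct.lift_tmul,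
    LinearMap.sum_apply, Module.End.mul_apply, postAct_apply, preAct_apply]

/-- A vector space with an action given by an algebra homomorphism, as a module. -/
def RMod {X : Type*} [AddCommGroup X] [Module k X] (_σ : H →ₐ[k] Module.End k X) : Type _ := X

section rmod

variable {X : Type*} [AddCommGroup X] [Module k X] (σ : H →ₐ[k] Module.End k X)

instance : AddCommGroup (RMod σ) := inferInstanceAs (AddCommGroup X)
instance : Module k (RMod σ) := inferInstanceAs (Module k X)
noncomputable instance : Module H (RMod σ) := Module.compHom X (σ : H →+* Module.End k X)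
instance [FiniteDimensional k X] : FiniteDimensional k (RMod σ) :=
  inferInstanceAs (FiniteDimensional k X)

/-- the identity map, as a `k`-linear isomorphism -/
def requiv : RMod σ ≃ₗ[k] X := LinearEquiv.refl k X

theorem rmod_smul' (h : H) (x : RMod σ) : requiv σ (h • x) = σ h (requiv σ x) := rfl

theorem rmod_smul (h : H) (x : RMod σ) : h • x = (σ h (show X from x) : X) := rfl

instance : IsScalarTower k H (RMod σ) where
  smul_assoc c h x := by
    rw [rmod_smul, rmod_smul, map_smul]; rfl

end rmod

end actions

section embeddings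

variable {k H : Type*} [Field k] [Ring H] [HopfAlgebra k H]

theorem sum_smul_counit {ι : Type*} (h : H) (r : Repr k h ι) :
    ∑ i ∈ r.index, counit (R := k) (r.right i) • r.left i = h := by
  have h1 := congrArg (TensorProduct.lift ((LinearMap.lsmul k H).flip)) (sum_tmul_counit_eq r)
  simpa only [map_sum, TensorProduct.lift.tmul, LinearMap.flip_apply, LinearMap.lsmul_apply,
    one_smul] using h1

/-- `∑ h₁ ⊗ h₂ S(h₃) = h ⊗ 1`. -/
theorem star1 {ι : Type*} {κ : ι → Type*} (h : H) (r : Repr k h ι)
    (a : (i : ι) → Repr k (r.left i) (κ i)) :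
    ∑ i ∈ r.index, ∑ j ∈ (a i).index,
      (a i).left j ⊗ₜ[k] ((a i).right j * HopfAlgebra.antipode k (r.right i)) = h ⊗ₜ[k] (1 : H) := by
  have h1 := sum_tmul_tmul_eq r a (fun i => Repr.arbitrary k (r.right i))
  have h2 := congrArg (LinearMap.lTensor H
    (LinearMap.mul' k H ∘ₗ (LinearMap.lTensor H (HopfAlgebra.antipode k)))) h1
  simp only [map_sum, LinearMap.lTensor_tmul, LinearMap.comp_apply, LinearMap.mul'_apply] at h2
  rw [h2]
  simp only [← TensorProduct.tmul_sum, HopfAlgebra.sum_mul_antipode_eq_smul,
    TensorProduct.tmul_smul]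
  simp only [TensorProduct.smul_tmul']
  rw [← TensorProduct.sum_tmul, sum_smul_counit]

/-- `∑ S(h₁) h₂ ⊗ h₃ = 1 ⊗ h`. -/
theorem star4 {ι : Type*} {κ : ι → Type*} (h : H) (r : Repr k h ι)
    (a : (i : ι) → Repr k (r.right i) (κ i)) :
    ∑ i ∈ r.index, ∑ j ∈ (a i).index,
      (HopfAlgebra.antipode k (r.left i) * (a i).left j) ⊗ₜ[k] (a i).right j = (1 : H) ⊗ₜ[k] h := by
  have h1 := sum_tmul_tmul_eq r (fun i => Repr.arbitrary k (r.left i)) a
  have h2 := congrArg ((LinearMap.rTensor H
    (LinearMap.mul' k H ∘ₗ (LinearMap.rTensor H (HopfAlgebra.antipode k)))) ∘ₗ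
      (TensorProduct.assoc k H H H).symm.toLinearMap) h1
  simp only [map_sum, LinearMap.comp_apply, LinearEquiv.coe_coe, TensorProduct.assoc_symm_tmul,
    LinearMap.rTensor_tmul, LinearMap.mul'_apply] at h2
  rw [← h2]
  simp only [← TensorProduct.sum_tmul, HopfAlgebra.sum_antipode_mul_eq_smul]
  simp only [← TensorProduct.smul_tmul']
  simp only [← TensorProduct.tmul_smul]
  rw [← TensorProduct.tmul_sum, sum_counit_smul]

variable {W A A' : Type*} [AddCommGroup W] [Module k W] [Module H W] [IsScalarTower k H W]
  [AddCommGroup A] [Module k A] [Module H A] [IsScalarTower k H A]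
  [AddCommGroup A'] [Module k A'] [Module H A'] [IsScalarTower k H A']

theorem toHom_aux (φ : RMod (tensAct (H := H) (k := k) W A) →ₗ[H] A') (h : H) (w : W) (a : A) :
    φ ((requiv (tensAct (H := H) (k := k) W A)).symm ((h • w) ⊗ₜ[k] a)) =
      ∑ i ∈ (Repr.arbitrary k h).index, (Repr.arbitrary k h).left i •
        φ ((requiv (tensAct (H := H) (k := k) W A)).symm
          (w ⊗ₜ[k] (HopfAlgebra.antipode k ((Repr.arbitrary k h).right i) • a))) := by
  have h1 := star1 h (Repr.arbitrary k h) (fun i => Repr.arbitrary k ((Repr.arbitrary k h).left i))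
  have h2 := congrArg ((φ.restrictScalars k) ∘ₗ
    (requiv (tensAct (H := H) (k := k) W A)).symm.toLinearMap ∘ₗ
    TensorProduct.map ((LinearMap.toSpanSingleton H W w).restrictScalars k)
      ((LinearMap.toSpanSingleton H A a).restrictScalars k)) h1
  simp only [map_sum, LinearMap.comp_apply, TensorProduct.map_tmul,
    LinearMap.coe_restrictScalars, LinearMap.toSpanSingleton_apply, one_smul, LinearEquiv.coe_coe,
    mul_smul] at h2
  rw [← h2]
  refine Finset.sum_congr rfl fun i _ => ?_
  rw [← φ.map_smul]
  have h3 : (Repr.arbitrary k h).left i • (requiv (tensAct (H := H) (k := k) W A)).symm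
      (w ⊗ₜ[k] (HopfAlgebra.antipode k ((Repr.arbitrary k h).right i) • a))
      = (requiv (tensAct (H := H) (k := k) W A)).symm
        (tensAct W A ((Repr.arbitrary k h).left i)
          (w ⊗ₜ[k] (HopfAlgebra.antipode k ((Repr.arbitrary k h).right i) • a))) := rfl
  rw [h3, tensAct_tmul (Repr.arbitrary k ((Repr.arbitrary k h).left i)), map_sum, map_sum]

/-- `Hom_H(W ⊗ A, A') → Hom_H(W, Hom_k(A, A'))`. -/
noncomputable def toHom : (RMod (tensAct (H := H) (k := k) W A) →ₗ[H] A') →ₗ[k]
    (W →ₗ[H] RMod (homAct (H := H) (k := k) A A')) where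
  toFun φ :=
    { toFun := fun w => (requiv (homAct (H := H) (k := k) A A')).symm
        ((φ.restrictScalars k) ∘ₗ (requiv (tensAct (H := H) (k := k) W A)).symm.toLinearMap ∘ₗ
          (TensorProduct.mk k W A w))
      map_add' := fun w w' => by
        rw [← map_add]
        congr 1
        refine LinearMap.ext fun a => ?_
        simp
      map_smul' := fun h w => by
        apply (requiv (homAct (H := H) (k := k) A A')).injective
        rw [rmod_smul', LinearEquiv.apply_symm_apply, RingHom.id_apply]
        refine LinearMap.ext fun a => ?_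
        rw [LinearEquiv.apply_symm_apply, homAct_apply (Repr.arbitrary k h)]
        exact toHom_aux φ h w a }
  map_add' φ ψ := rfl
  map_smul' c φ := rfl

theorem toHom_injective : Function.Injective
    (toHom (k := k) (H := H) (W := W) (A := A) (A' := A')) := by
  rw [← LinearMap.ker_eq_bot, LinearMap.ker_eq_bot']
  intro φ h0
  have h1 : (φ.restrictScalars k) ∘ₗ
      (requiv (tensAct (H := H) (k := k) W A)).symm.toLinearMap = 0 := by
    refine TensorProduct.ext' fun w a => ?_
    have h2 := LinearMap.congr_fun h0 w
    exact LinearMap.congr_fun (f := (φ.restrictScalars k) ∘ₗ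
      (requiv (tensAct (H := H) (k := k) W A)).symm.toLinearMap ∘ₗ
          (TensorProduct.mk k W A w)) (g := 0) h2 a
  refine LinearMap.ext fun x => ?_
  exact LinearMap.congr_fun h1 (requiv (tensAct (H := H) (k := k) W A) x)

/-- contraction with a linear form -/
noncomputable def contr (f : W →ₗ[k] k) : W ⊗[k] A →ₗ[k] A :=
  TensorProduct.lift ((LinearMap.lsmul k A) ∘ₗ f)

theorem contr_tmul (f : W →ₗ[k] k) (w : W) (a : A) : contr f (w ⊗ₜ[k] a) = f w • a := rfl

omit [Module H W] [IsScalarTower k H W] [Module H A] [IsScalarTower k H A] in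
theorem eq_zero_of_contr [FiniteDimensional k W] (t : W ⊗[k] A)
    (h : ∀ f : W →ₗ[k] k, contr f t = 0) : t = 0 := by
  classical
  let b := Module.finBasis k W
  apply (TensorProduct.equivFinsuppOfBasisLeft b (N := A)).injective
  rw [map_zero]
  refine Finsupp.ext fun i => ?_
  have h1 : ∀ t : W ⊗[k] A, (TensorProduct.equivFinsuppOfBasisLeft b (N := A)) t i
      = contr (b.coord i) t := by
    intro t
    induction t using TensorProduct.induction_on with
    | zero => simp
    | tmul w a => rw [TensorProduct.equivFinsuppOfBasisLeft_apply_tmul_apply]; rfl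
    | add x y hx hy => rw [map_add, Finsupp.add_apply, hx, hy, map_add]
  rw [h1, h]; rfl

theorem contr_aux (h : H) (f : W →ₗ[k] k) (t : W ⊗[k] A) :
    ∑ i ∈ (Repr.arbitrary k h).index,
      contr (preAct W k ((Repr.arbitrary k h).left i) f)
        (tensAct W A ((Repr.arbitrary k h).right i) t) = h • contr f t := by
  induction t using TensorProduct.induction_on with
  | zero => simp
  | tmul w a =>
    have h1 := star4 h (Repr.arbitrary k h)
      (fun i => Repr.arbitrary k ((Repr.arbitrary k h).right i))
    have h2 := congrArg (contr f ∘ₗ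
      TensorProduct.map ((LinearMap.toSpanSingleton H W w).restrictScalars k)
        ((LinearMap.toSpanSingleton H A a).restrictScalars k)) h1
    simp only [map_sum, LinearMap.comp_apply, TensorProduct.map_tmul,
      LinearMap.coe_restrictScalars, LinearMap.toSpanSingleton_apply, one_smul,
      mul_smul, contr_tmul] at h2
    rw [contr_tmul, smul_comm h (f w) a, ← h2]
    refine Finset.sum_congr rfl fun i _ => ?_
    rw [tensAct_tmul (Repr.arbitrary k ((Repr.arbitrary k h).right i)), map_sum]
    refine Finset.sum_congr rfl fun j _ => ?_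
    rw [contr_tmul, preAct_apply]
  | add x y hx hy =>
    rw [map_add, smul_add, ← hx, ← hy, ← Finset.sum_add_distrib]
    refine Finset.sum_congr rfl fun i _ => ?_
    rw [map_add, map_add]

/-- the bilinear map `(f, a') ↦ (f ⊗ id)(ψ a')` -/
noncomputable def dualBil (ψ : A' →ₗ[H] RMod (tensAct (H := H) (k := k) W A)) :
    RMod (preAct (H := H) (k := k) W k) →ₗ[k] A' →ₗ[k] A :=
  LinearMap.mk₂ k (fun f a' =>
      contr (requiv (preAct (H := H) (k := k) W k) f)
        (requiv (tensAct (H := H) (k := k) W A) (ψ a')))
    (fun f f' a' => by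
      have : ∀ t : W ⊗[k] A, contr (requiv (preAct (H := H) (k := k) W k) (f + f')) t
          = contr (requiv (preAct (H := H) (k := k) W k) f) t
            + contr (requiv (preAct (H := H) (k := k) W k) f') t := by
        intro t
        induction t using TensorProduct.induction_on with
        | zero => simp
        | tmul w a => simp [contr_tmul, add_smul]
        | add x y hx hy => rw [map_add, hx, hy, map_add, map_add]; abel
      exact this _)
    (fun c f a' => by
      have : ∀ t : W ⊗[k] A, contr (requiv (preAct (H := H) (k := k) W k) (c • f)) t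
          = c • contr (requiv (preAct (H := H) (k := k) W k) f) t := by
        intro t
        induction t using TensorProduct.induction_on with
        | zero => simp
        | tmul w a => simp [contr_tmul, mul_smul]
        | add x y hx hy => rw [map_add, hx, hy, map_add, smul_add]
      exact this _)
    (fun f a b => by rw [map_add, map_add, map_add])
    (fun c f a => by
      rw [LinearMap.map_smul_of_tower ψ c a, map_smul, map_smul])

theorem dualBil_apply (ψ : A' →ₗ[H] RMod (tensAct (H := H) (k := k) W A))
    (f : RMod (preAct (H := H) (k := k) W k)) (a' : A') :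
    dualBil ψ f a' = contr (requiv (preAct (H := H) (k := k) W k) f)
        (requiv (tensAct (H := H) (k := k) W A) (ψ a')) := rfl

/-- `Hom_H(A', W ⊗ A) → Hom_H(W* ⊗ A', A)`. -/
noncomputable def toDual : (A' →ₗ[H] RMod (tensAct (H := H) (k := k) W A)) →ₗ[k]
    (RMod (tensAct (H := H) (k := k) (RMod (preAct (H := H) (k := k) W k)) A') →ₗ[H] A) where
  toFun ψ :=
    { toFun := fun x => TensorProduct.lift (dualBil ψ)
        (requiv (tensAct (H := H) (k := k) (RMod (preAct (H := H) (k := k) W k)) A') x)
      map_add' := fun x y => by rw [map_add, map_add]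
      map_smul' := fun h x => by
        rw [rmod_smul', RingHom.id_apply]
        generalize requiv (tensAct (H := H) (k := k) (RMod (preAct (H := H) (k := k) W k)) A') x
          = t
        induction t using TensorProduct.induction_on with
        | zero => simp
        | tmul f a' =>
          rw [tensAct_tmul (Repr.arbitrary k h), map_sum, TensorProduct.lift.tmul,
            dualBil_apply, ← contr_aux]
          refine Finset.sum_congr rfl fun i _ => ?_
          rw [TensorProduct.lift.tmul, dualBil_apply, rmod_smul', ψ.map_smul, rmod_smul']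
        | add x y hx hy => rw [map_add, map_add, hx, hy, map_add, smul_add] }
  map_add' φ ψ := by
    refine LinearMap.ext fun x => ?_
    show TensorProduct.lift (dualBil (φ + ψ)) (requiv _ x)
      = TensorProduct.lift (dualBil φ) (requiv _ x) + TensorProduct.lift (dualBil ψ) (requiv _ x)
    rw [← LinearMap.add_apply]
    congr 1
    refine TensorProduct.ext' fun f a' => ?_
    rw [LinearMap.add_apply, TensorProduct.lift.tmul, TensorProduct.lift.tmul,
      TensorProduct.lift.tmul, dualBil_apply, dualBil_apply, dualBil_apply,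
      LinearMap.add_apply, map_add, map_add]
  map_smul' c φ := by
    refine LinearMap.ext fun x => ?_
    show TensorProduct.lift (dualBil (c • φ)) (requiv _ x)
      = c • TensorProduct.lift (dualBil φ) (requiv _ x)
    rw [← LinearMap.smul_apply]
    congr 1
    refine TensorProduct.ext' fun f a' => ?_
    rw [LinearMap.smul_apply, TensorProduct.lift.tmul, TensorProduct.lift.tmul,
      dualBil_apply, dualBil_apply, LinearMap.smul_apply, map_smul, map_smul]

theorem toDual_injective [FiniteDimensional k W] : Function.Injective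
    (toDual (k := k) (H := H) (W := W) (A := A) (A' := A')) := by
  rw [← LinearMap.ker_eq_bot, LinearMap.ker_eq_bot']
  intro ψ h0
  refine LinearMap.ext fun a' => ?_
  apply (requiv (tensAct (H := H) (k := k) W A)).injective
  rw [LinearMap.zero_apply, map_zero]
  refine eq_zero_of_contr _ fun f => ?_
  have h1 := LinearMap.congr_fun h0
    ((requiv (tensAct (H := H) (k := k) (RMod (preAct (H := H) (k := k) W k)) A')).symm
      (((requiv (preAct (H := H) (k := k) W k)).symm f) ⊗ₜ[k] a'))
  exact h1

end embeddings

end Pool.Agent.Lib_MP_13305e
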