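import Mathlib

set_option autoImplicit false

/-!
Numerical part: non-negative integers `N w a a'` (multiplicities of `a'` in `w ⊗ a`) and
dimensions `d i`, subject to the three dimension equations.
-/

namespace Pool.Agent.Lib_MP_13305e

open Finset

section integrality

variable {ι : Type*} [Fintype ι] [DecidableEq ι]

/-- A rational eigenvalue of an integer matrix is an integer. -/
theorem exists_int_of_mulVec_eq (Z : Matrix ι ι ℤ) (v : ι → ℚ) (hv : v ≠ 0) (q : ℚ)
    (h : (Z.map (Int.castRingHom ℚ)).mulVec v = q • v) : ∃ n : ℤ, q = n := by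
  classical
  set M : Matrix ι ι ℚ := Z.map (Int.castRingHom ℚ) with hM
  have hev : Module.End.HasEigenvector (Matrix.toLin' M) q v := by
    rw [Module.End.hasEigenvector_iff]
    refine ⟨?_, hv⟩
    rw [Module.End.mem_eigenspace_iff, Matrix.toLin'_apply]
    exact h
  have h1 := Module.End.aeval_apply_of_hasEigenvector (p := M.charpoly) hev
  have h2 : Polynomial.aeval (Matrix.toLin' M) M.charpoly = 0 := by
    have := Matrix.aeval_self_charpoly M
    have h3 := Polynomial.aeval_algHom_apply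
      (Matrix.toLinAlgEquiv' (R := ℚ) (n := ι)).toAlgHom M M.charpoly
    rw [this, map_zero] at h3
    exact h3
  rw [h2] at h1
  have h4 : Polynomial.eval q M.charpoly = 0 := by
    have h5 : Polynomial.eval q M.charpoly • v = 0 := by
      rw [← h1]; simp
    rcases smul_eq_zero.mp h5 with h6 | h6
    · exact h6
    · exact absurd h6 hv
  have h5 : M.charpoly = Z.charpoly.map (Int.castRingHom ℚ) := by
    rw [hM, Matrix.charpoly_map]
  have hint : IsIntegral ℤ q := by
    refine ⟨Z.charpoly, Z.charpoly_monic, ?_⟩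
    rw [h5, Polynomial.eval_map] at h4
    exact h4
  obtain ⟨n, hn⟩ := IsIntegrallyClosed.isIntegral_iff.mp hint
  exact ⟨n, by rw [← hn]; simp⟩

end integrality

section numeric

variable {ι : Type*} [Fintype ι]

/-- If the inequalities hold then they are equalities. -/
theorem eq_of_le {d : ι → ℕ} (hd : ∀ i, 0 < d i) (F : ι → ι → ℕ) (c : ℕ)
    (h1 : ∀ a, ∑ a', F a a' * d a' = c * d a)
    (h2 : ∀ a', ∑ a, F a a' * d a ≤ c * d a') (a' : ι) :
    ∑ a, F a a' * d a = c * d a' := by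
  have hsum : ∑ a', d a' * ∑ a, F a a' * d a = ∑ a', d a' * (c * d a') := by
    calc ∑ a', d a' * ∑ a, F a a' * d a
        = ∑ a, d a * ∑ a', F a a' * d a' := by
          simp_rw [Finset.mul_sum]
          rw [Finset.sum_comm]
          refine Finset.sum_congr rfl fun a _ => Finset.sum_congr rfl fun b _ => by ring
      _ = ∑ a, d a * (c * d a) := by
          refine Finset.sum_congr rfl fun a _ => by rw [h1]
  have hle : ∀ i ∈ (univ : Finset ι), d i * ∑ a, F a i * d a ≤ d i * (c * d i) :=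
    fun i _ => Nat.mul_le_mul_left _ (h2 i)
  have := (Finset.sum_eq_sum_iff_of_le hle).mp hsum a' (mem_univ _)
  exact Nat.eq_of_mul_eq_mul_left (hd a') this

/-- the same for the sum over the first index -/
theorem eq_of_le' {d : ι → ℕ} (hd : ∀ i, 0 < d i) (N : ι → ι → ι → ℕ)
    (h1 : ∀ w a, ∑ a', N w a a' * d a' = d w * d a)
    (h2 : ∀ a a', ∑ w, N w a a' * d w ≤ d a * d a') (a a' : ι) :
    ∑ w, N w a a' * d w = d a * d a' := by
  have h1' : ∀ w, ∑ a', N w a a' * d a' = d a * d w := fun w => by rw [h1, mul_comm]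
  exact eq_of_le hd (fun w a' => N w a a') (d a) h1' (fun a' => h2 a a') a'

variable (N : ι → ι → ι → ℕ) (d : ι → ℕ) (g : ℕ)

/-- the weighted sum of the multiplicity matrices of the `w` with `¬ g ∣ d w` -/
def E (a a' : ι) : ℕ := ∑ w with ¬ g ∣ d w, N w a a' * d w

variable {N d g}

theorem E_row (h1 : ∀ w a, ∑ a', N w a a' * d a' = d w * d a) (a : ι) :
    ∑ a', E N d g a a' * d a' = (∑ w with ¬ g ∣ d w, d w ^ 2) * d a := by
  unfold E
  simp_rw [Finset.sum_mul]
  rw [Finset.sum_comm]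
  refine Finset.sum_congr rfl fun w _ => ?_
  calc ∑ x, N w a x * d w * d x = d w * ∑ x, N w a x * d x := by
        rw [Finset.mul_sum]; refine Finset.sum_congr rfl fun _ _ => by ring
    _ = d w ^ 2 * d a := by rw [h1]; ring

theorem E_col (h3 : ∀ w a', ∑ a, N w a a' * d a = d w * d a') (a' : ι) :
    ∑ a, E N d g a a' * d a = (∑ w with ¬ g ∣ d w, d w ^ 2) * d a' := by
  unfold E
  simp_rw [Finset.sum_mul]
  rw [Finset.sum_comm]
  refine Finset.sum_congr rfl fun w _ => ?_
  calc ∑ x, N w x a' * d w * d x = d w * ∑ x, N w x a' * d x := by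
        rw [Finset.mul_sum]; refine Finset.sum_congr rfl fun _ _ => by ring
    _ = d w ^ 2 * d a' := by rw [h3]; ring

theorem E_add (h2 : ∀ a a', ∑ w, N w a a' * d w = d a * d a') (a a' : ι) :
    E N d g a a' + g * ∑ w with g ∣ d w, N w a a' * (d w / g) = d a * d a' := by
  rw [← h2 a a', ← Finset.sum_filter_add_sum_filter_not univ (fun w => g ∣ d w), add_comm]
  congr 1
  rw [Finset.mul_sum]
  refine Finset.sum_congr rfl fun w hw => ?_
  rw [Finset.mem_filter] at hw
  calc g * (N w a a' * (d w / g)) = N w a a' * (g * (d w / g)) := by ring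
    _ = N w a a' * d w := by rw [Nat.mul_div_cancel' hw.2]

/-- one-sided vanishing implies two-sided vanishing -/
theorem E_symm_zero (hd : ∀ i, 0 < d i)
    (h1 : ∀ w a, ∑ a', N w a a' * d a' = d w * d a)
    (h3 : ∀ w a', ∑ a, N w a a' * d a = d w * d a')
    (L : ι → Prop) (h : ∀ a a', L a → ¬ L a' → E N d g a a' = 0) :
    ∀ a a', ¬ L a → L a' → E N d g a a' = 0 := by
  classical
  have hr : ∑ a with L a, d a * ∑ a' with L a', E N d g a a' * d a'
      = ∑ a with L a, d a * ((∑ w with ¬ g ∣ d w, d w ^ 2) * d a) := by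
    refine Finset.sum_congr rfl fun a ha => ?_
    rw [Finset.mem_filter] at ha
    rw [← E_row h1 a, ← Finset.sum_filter_add_sum_filter_not univ (fun a' => L a')]
    congr 1
    rw [eq_comm, Nat.add_eq_left]
    refine Finset.sum_eq_zero fun a' ha' => ?_
    rw [Finset.mem_filter] at ha'
    rw [h a a' ha.2 ha'.2, zero_mul]
  have hc : ∑ a' with L a', d a' * (∑ a with L a, E N d g a a' * d a
        + ∑ a with ¬ L a, E N d g a a' * d a)
      = ∑ a' with L a', d a' * ((∑ w with ¬ g ∣ d w, d w ^ 2) * d a') := by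
    refine Finset.sum_congr rfl fun a' _ => ?_
    rw [← E_col h3 a', ← Finset.sum_filter_add_sum_filter_not univ (fun a => L a)
      (fun a => E N d g a a' * d a)]
  have hswap : ∑ a with L a, d a * ∑ a' with L a', E N d g a a' * d a'
      = ∑ a' with L a', d a' * ∑ a with L a, E N d g a a' * d a := by
    simp_rw [Finset.mul_sum]
    rw [Finset.sum_comm]
    refine Finset.sum_congr rfl fun a _ => Finset.sum_congr rfl fun b _ => by ring
  have hz : ∑ a' with L a', d a' * ∑ a with ¬ L a, E N d g a a' * d a = 0 := by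
    simp_rw [mul_add, Finset.sum_add_distrib] at hc
    rw [← hswap, hr] at hc
    omega
  intro a a' ha ha'
  have h5 := (Finset.sum_eq_zero_iff.mp hz) a' (by simp [ha'])
  have h6 : ∑ a with ¬ L a, E N d g a a' * d a = 0 := by
    rcases Nat.mul_eq_zero.mp h5 with h | h
    · exact absurd h (hd a').ne'
    · exact h
  have h7 := (Finset.sum_eq_zero_iff.mp h6) a (by simp [ha])
  rcases Nat.mul_eq_zero.mp h7 with h | h
  · exact h
  · exact absurd h (hd a).ne'

/-- **The main numerical theorem.** -/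
theorem dvd_of_split (hg : 0 < g) (hd : ∀ i, 0 < d i)
    (h1 : ∀ w a, ∑ a', N w a a' * d a' = d w * d a)
    (h2 : ∀ a a', ∑ w, N w a a' * d w = d a * d a')
    (h3 : ∀ w a', ∑ a, N w a a' * d a = d w * d a')
    (L : ι → Prop) (hL : ∃ i, L i) (hL' : ∃ i, ¬ L i)
    (h : ∀ a a', L a → ¬ L a' → E N d g a a' = 0) :
    g ∣ ∑ w with ¬ g ∣ d w, d w ^ 2 := by
  classical
  have h' := E_symm_zero hd h1 h3 L h
  set R : ℕ := ∑ w with ¬ g ∣ d w, d w ^ 2 with hR
  set x : ℚ := ∑ i with L i, (d i : ℚ) ^ 2 with hx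
  set y : ℚ := ∑ i with ¬ L i, (d i : ℚ) ^ 2 with hy
  have hdq : ∀ i, (0 : ℚ) < d i := fun i => by exact_mod_cast hd i
  have hxpos : 0 < x := by
    obtain ⟨i, hi⟩ := hL
    exact Finset.sum_pos (fun j _ => pow_pos (hdq j) 2) ⟨i, by simp [hi]⟩
  have hypos : 0 < y := by
    obtain ⟨i, hi⟩ := hL'
    exact Finset.sum_pos (fun j _ => pow_pos (hdq j) 2) ⟨i, by simp [hi]⟩
  let v : ι → ℚ := fun i => if L i then y * d i else -(x * d i)
  have hv : v ≠ 0 := by
    obtain ⟨i, hi⟩ := hL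
    intro h0
    have := congrFun h0 i
    simp only [v, hi, if_true, Pi.zero_apply] at this
    exact (mul_pos hypos (hdq i)).ne' this
  have horth : ∑ i, (d i : ℚ) * v i = 0 := by
    rw [← Finset.sum_filter_add_sum_filter_not univ (fun i => L i)]
    have e1 : ∑ i with L i, (d i : ℚ) * v i = y * x := by
      rw [hx, Finset.mul_sum]
      refine Finset.sum_congr rfl fun i hi => ?_
      rw [Finset.mem_filter] at hi
      simp only [v, hi.2, if_true]; ring
    have e2 : ∑ i with ¬ L i, (d i : ℚ) * v i = - (x * y) := by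
      rw [hy, Finset.mul_sum, ← Finset.sum_neg_distrib]
      refine Finset.sum_congr rfl fun i hi => ?_
      rw [Finset.mem_filter] at hi
      simp only [v, hi.2, if_false]; ring
    rw [e1, e2]; ring
  have hE : ∀ a, ∑ a', (E N d g a a' : ℚ) * v a' = R * v a := by
    intro a
    have hrow : ∑ a', (E N d g a a' : ℚ) * d a' = R * d a := by
      have := E_row (g := g) h1 a
      rw [hR]
      exact_mod_cast this
    by_cases ha : L a
    · have : ∀ a', (E N d g a a' : ℚ) * v a' = y * ((E N d g a a' : ℚ) * d a') := by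
        intro a'
        by_cases ha' : L a'
        · simp only [v, ha', if_true]; ring
        · rw [h a a' ha ha']; simp
      rw [Finset.sum_congr rfl fun a' _ => this a', ← Finset.mul_sum, hrow]
      simp only [v, ha, if_true]; ring
    · have : ∀ a', (E N d g a a' : ℚ) * v a' = -x * ((E N d g a a' : ℚ) * d a') := by
        intro a'
        by_cases ha' : L a'
        · rw [h' a a' ha ha']; simp
        · simp only [v, ha', if_false]; ring
      rw [Finset.sum_congr rfl fun a' _ => this a', ← Finset.mul_sum, hrow]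
      simp only [v, ha, if_false]; ring
  let Z : Matrix ι ι ℤ := fun a a' => ((∑ w with g ∣ d w, N w a a' * (d w / g) : ℕ) : ℤ)
  have hgq : (g : ℚ) ≠ 0 := by exact_mod_cast hg.ne'
  have hZ : (Z.map (Int.castRingHom ℚ)).mulVec v = (-(R : ℚ) / g) • v := by
    funext a
    have hadd : ∀ a', (E N d g a a' : ℚ) + g * ((Z a a' : ℤ) : ℚ) = d a * d a' := by
      intro a'
      have := E_add (g := g) h2 a a'
      have h8 : ((Z a a' : ℤ) : ℚ) = ((∑ w with g ∣ d w, N w a a' * (d w / g) : ℕ) : ℚ) := by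
        simp only [Z]; norm_cast
      rw [h8]
      exact_mod_cast this
    have hsum : ∑ a', ((E N d g a a' : ℚ) + g * ((Z a a' : ℤ) : ℚ)) * v a' = 0 := by
      calc ∑ a', ((E N d g a a' : ℚ) + g * ((Z a a' : ℤ) : ℚ)) * v a'
          = d a * ∑ a', (d a' : ℚ) * v a' := by
            rw [Finset.mul_sum]
            refine Finset.sum_congr rfl fun a' _ => by rw [hadd]; ring
        _ = 0 := by rw [horth, mul_zero]
    have hsplit : ∑ a', ((E N d g a a' : ℚ) + g * ((Z a a' : ℤ) : ℚ)) * v a'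
        = R * v a + g * ∑ a', ((Z a a' : ℤ) : ℚ) * v a' := by
      rw [← hE a, Finset.mul_sum, ← Finset.sum_add_distrib]
      refine Finset.sum_congr rfl fun a' _ => by ring
    have hmv : (Z.map (Int.castRingHom ℚ)).mulVec v a = ∑ a', ((Z a a' : ℤ) : ℚ) * v a' := by
      simp [Matrix.mulVec, dotProduct]
    rw [hmv, Pi.smul_apply, smul_eq_mul]
    rw [hsplit] at hsum
    field_simp
    linarith
  obtain ⟨n, hn⟩ := exists_int_of_mulVec_eq Z v hv _ hZ
  have h9 : (R : ℚ) = g * (-n : ℤ) := by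
    push_cast
    rw [← hn]
    field_simp
  have h10 : (R : ℤ) = g * (-n : ℤ) := by exact_mod_cast h9
  have h11 : (g : ℤ) ∣ (R : ℤ) := ⟨_, h10⟩
  exact_mod_cast h11

/-- and then `g` divides the sum of all squares -/
theorem dvd_sum_sq (h : g ∣ ∑ w with ¬ g ∣ d w, d w ^ 2) : g ∣ ∑ w, d w ^ 2 := by
  rw [← Finset.sum_filter_add_sum_filter_not univ (fun w => g ∣ d w)]
  refine Nat.dvd_add (Finset.dvd_sum fun w hw => ?_) h
  rw [Finset.mem_filter] at hw
  exact Dvd.dvd.trans hw.2 (Dvd.intro_left _ (by rw [pow_two]))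

/-- the part of the sum of squares over `L` -/
theorem dvd_sum_sq_of (L : ι → Prop) [DecidablePred L] (hL : ∀ w, ¬ g ∣ d w → L w)
    (h : g ∣ ∑ w with ¬ g ∣ d w, d w ^ 2) : g ∣ ∑ w with L w, d w ^ 2 := by
  classical
  rw [← Finset.sum_filter_add_sum_filter_not (univ.filter L) (fun w => g ∣ d w)]
  refine Nat.dvd_add (Finset.dvd_sum fun w hw => ?_) ?_
  · rw [Finset.mem_filter] at hw
    exact Dvd.dvd.trans hw.2 (Dvd.intro_left _ (by rw [pow_two]))
  · have : (univ.filter L).filter (fun w => ¬ g ∣ d w) = univ.filter (fun w => ¬ g ∣ d w) := by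
      ext w
      simp only [Finset.mem_filter, Finset.mem_univ, true_and]
      exact ⟨fun h => h.2, fun h => ⟨hL w h, h⟩⟩
    rw [this]; exact h

/-- In the situation of the main theorem, with an index of dimension one, `g` also divides the
sum of the squares over `L`. -/
theorem dvd_sum_L (i0 : ι) (hi0 : d i0 = 1)
    (h2 : ∀ a a', ∑ w, N w a a' * d w = d a * d a')
    (L : ι → Prop) [DecidablePred L]
    (h : ∀ a a', L a → ¬ L a' → E N d g a a' = 0)
    (hR : g ∣ ∑ w with ¬ g ∣ d w, d w ^ 2) : g ∣ ∑ w with L w, d w ^ 2 := by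
  have key : ∀ a v, L a → ¬ L v → g ∣ d a * d v := by
    intro a v ha hv
    rw [← E_add (g := g) h2 a v, h a v ha hv, zero_add]
    exact Dvd.intro _ rfl
  by_cases h0 : L i0
  · refine dvd_sum_sq_of L (fun w hw => ?_) hR
    by_contra hLw
    have := key i0 w h0 hLw
    rw [hi0, one_mul] at this
    exact hw this
  · refine Finset.dvd_sum fun w hw => ?_
    rw [Finset.mem_filter] at hw
    have := key w i0 hw.2 h0
    rw [hi0, mul_one] at this
    exact Dvd.dvd.trans this (Dvd.intro_left _ (by rw [pow_two]))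

/-- **The gap theorem.** -/
theorem dvd_of_gap (hg : 0 < g) (hd : ∀ i, 0 < d i)
    (h1 : ∀ w a, ∑ a', N w a a' * d a' = d w * d a)
    (h2 : ∀ a a', ∑ w, N w a a' * d w = d a * d a')
    (h3 : ∀ w a', ∑ a, N w a a' * d a = d w * d a')
    (L : ι → Prop) (hL' : ∃ i, ¬ L i)
    (hdiv : ∀ i, ¬ L i → g ∣ d i)
    (h : ∀ a v, L a → ¬ L v → (∑ w with ¬ g ∣ d w, d w ^ 2) * d a < g * d v) :
    g ∣ ∑ w with ¬ g ∣ d w, d w ^ 2 := by
  classical
  by_cases hL : ∃ i, L i
  · refine dvd_of_split hg hd h1 h2 h3 L hL hL' fun a v ha hv => ?_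
    have hrow := E_row (g := g) h1 a
    have h4 : E N d g a v * d v ≤ (∑ w with ¬ g ∣ d w, d w ^ 2) * d a := by
      rw [← hrow]
      exact Finset.single_le_sum (f := fun a' => E N d g a a' * d a') (fun _ _ => Nat.zero_le _)
        (mem_univ v)
    have h5 : E N d g a v * d v < g * d v := lt_of_le_of_lt h4 (h a v ha hv)
    have h6 : E N d g a v < g := lt_of_mul_lt_mul_right h5 (Nat.zero_le _)
    have h7 : g ∣ E N d g a v := by
      have h8 := E_add (g := g) h2 a v
      have h9 : g ∣ d a * d v := Dvd.dvd.mul_left (hdiv v hv) _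
      rw [← h8] at h9
      exact (Nat.dvd_add_iff_left (Dvd.intro _ rfl)).mpr h9
    exact Nat.eq_zero_of_dvd_of_lt h7 h6
  · push_neg at hL
    rw [Finset.filter_false_of_mem]
    · simp
    · intro w _ hw
      exact hw (hdiv w (hL w))

/-- the criterion `R ^ 3 < g ^ 4` -/
theorem dvd_of_cube (hg : 0 < g) (hd : ∀ i, 0 < d i)
    (h1 : ∀ w a, ∑ a', N w a a' * d a' = d w * d a)
    (h2 : ∀ a a', ∑ w, N w a a' * d w = d a * d a')
    (h3 : ∀ w a', ∑ a, N w a a' * d a = d w * d a')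
    (hV : ∃ i, g ∣ d i)
    (h : (∑ w with ¬ g ∣ d w, d w ^ 2) ^ 3 < g ^ 4) :
    g ∣ ∑ w with ¬ g ∣ d w, d w ^ 2 := by
  classical
  refine dvd_of_gap hg hd h1 h2 h3 (fun i => ¬ g ∣ d i) (by simpa using hV)
    (fun i hi => by simpa using hi) fun a v ha hv => ?_
  set R := ∑ w with ¬ g ∣ d w, d w ^ 2 with hR
  have h4 : d a ^ 2 ≤ R := by
    rw [hR]
    exact Finset.single_le_sum (f := fun w => d w ^ 2) (fun _ _ => Nat.zero_le _)
      (by simp only [Finset.mem_filter, Finset.mem_univ, true_and]; exact ha)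
  have hv' : g ∣ d v := by simpa using hv
  have h5 : g ≤ d v := Nat.le_of_dvd (hd v) hv'
  have h6 : (R * d a) ^ 2 < (g * g) ^ 2 := by
    calc (R * d a) ^ 2 = R ^ 2 * d a ^ 2 := by ring
      _ ≤ R ^ 2 * R := Nat.mul_le_mul_left _ h4
      _ = R ^ 3 := by ring
      _ < g ^ 4 := h
      _ = (g * g) ^ 2 := by ring
  have h7 : R * d a < g * g := lt_of_pow_lt_pow_left₀ 2 (Nat.zero_le _) h6
  exact lt_of_lt_of_le h7 (Nat.mul_le_mul_left _ h5)

/-- the sum of all squares is congruent to `R` modulo `g²` -/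
theorem sum_sq_mul_dvd {x : ℕ} (h : g ^ 2 ∣ (∑ w with ¬ g ∣ d w, d w ^ 2) * x) :
    g ^ 2 ∣ (∑ w, d w ^ 2) * x := by
  rw [← Finset.sum_filter_add_sum_filter_not univ (fun w => g ∣ d w), add_mul]
  refine Nat.dvd_add (Dvd.dvd.mul_right (Finset.dvd_sum fun w hw => ?_) x) h
  rw [Finset.mem_filter] at hw
  exact pow_dvd_pow_of_dvd hw.2 2

/-- all entries in the column of `v` are divisible by `g` if `g ∣ d v` -/
theorem dvd_E (h2 : ∀ a a', ∑ w, N w a a' * d w = d a * d a') {v : ι} (hv : g ∣ d v) (a : ι) :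
    g ∣ E N d g a v := by
  have h8 := E_add (g := g) h2 a v
  have h9 : g ∣ d a * d v := Dvd.dvd.mul_left hv _
  rw [← h8] at h9
  exact (Nat.dvd_add_iff_left (Dvd.intro _ rfl)).mpr h9

/-- **Two-step theorem**, numerical form. -/
theorem dvd_of_col_zero
    (h2 : ∀ a a', ∑ w, N w a a' * d w = d a * d a')
    (h3 : ∀ w a', ∑ a, N w a a' * d a = d w * d a')
    {v : ι} (hv : g ∣ d v) (h : ∀ a, ¬ g ∣ d a → E N d g a v = 0) :
    g ^ 2 ∣ (∑ w, d w ^ 2) * d v := by
  refine sum_sq_mul_dvd ?_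
  rw [← E_col h3 v]
  refine Finset.dvd_sum fun a _ => ?_
  by_cases ha : g ∣ d a
  · rw [pow_two]
    exact mul_dvd_mul (dvd_E h2 hv a) ha
  · rw [h a ha, zero_mul]
    exact dvd_zero _

/-- an entry vanishes if `R * d a < g * d v` -/
theorem E_eq_zero_of_lt (h1 : ∀ w a, ∑ a', N w a a' * d a' = d w * d a)
    (h2 : ∀ a a', ∑ w, N w a a' * d w = d a * d a') {v : ι} (hv : g ∣ d v) {a : ι}
    (h : (∑ w with ¬ g ∣ d w, d w ^ 2) * d a < g * d v) : E N d g a v = 0 := by
  have hrow := E_row (g := g) h1 a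
  have h4 : E N d g a v * d v ≤ (∑ w with ¬ g ∣ d w, d w ^ 2) * d a := by
    rw [← hrow]
    exact Finset.single_le_sum (f := fun a' => E N d g a a' * d a') (fun _ _ => Nat.zero_le _)
      (mem_univ v)
  have h6 : E N d g a v < g := lt_of_mul_lt_mul_right (lt_of_le_of_lt h4 h) (Nat.zero_le _)
  exact Nat.eq_zero_of_dvd_of_lt (dvd_E h2 hv a) h6

/-- **Quantitative theorem**, numerical form. -/
theorem sum_sq_bad_le [DecidableEq ι]
    (h1 : ∀ w a, ∑ a', N w a a' * d a' = d w * d a)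
    (h2 : ∀ a a', ∑ w, N w a a' * d w = d a * d a')
    (h3 : ∀ w a', ∑ a, N w a a' * d a = d w * d a') :
    g ^ 2 * ∑ v with g ∣ d v ∧ ¬ g ^ 2 ∣ (∑ w, d w ^ 2) * d v, d v ^ 2
      ≤ (∑ w with ¬ g ∣ d w, d w ^ 2) ^ 3 := by
  classical
  set R : ℕ := ∑ w with ¬ g ∣ d w, d w ^ 2 with hR
  set 𝒱 : Finset ι := univ.filter (fun v => g ∣ d v ∧ ¬ g ^ 2 ∣ (∑ w, d w ^ 2) * d v) with h𝒱
  set Y : Finset ι := univ.filter (fun w => ¬ g ∣ d w) with hY
  have hex : ∀ v ∈ 𝒱, ∃ a ∈ Y, g ≤ E N d g a v := by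
    intro v hv
    rw [h𝒱, Finset.mem_filter] at hv
    by_contra hcon
    push_neg at hcon
    refine hv.2.2 (dvd_of_col_zero h2 h3 hv.2.1 fun a ha => ?_)
    exact Nat.eq_zero_of_dvd_of_lt (dvd_E h2 hv.2.1 a)
      (hcon a (by rw [hY, Finset.mem_filter]; exact ⟨mem_univ _, ha⟩))
  choose! A hAY hAg using hex
  -- the fibres
  have hfib : ∀ b ∈ Y, g * ∑ v ∈ 𝒱 with A v = b, d v ≤ R * d b := by
    intro b _
    rw [← E_row (g := g) h1 b, Finset.mul_sum]
    calc ∑ v ∈ 𝒱 with A v = b, g * d v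
        ≤ ∑ v ∈ 𝒱 with A v = b, E N d g b v * d v := by
          refine Finset.sum_le_sum fun v hv => Nat.mul_le_mul_right _ ?_
          rw [Finset.mem_filter] at hv
          rw [← hv.2]
          exact hAg v hv.1
      _ ≤ ∑ v, E N d g b v * d v :=
          Finset.sum_le_sum_of_subset (Finset.subset_univ _)
  have hfib2 : ∀ b ∈ Y, g ^ 2 * ∑ v ∈ 𝒱 with A v = b, d v ^ 2 ≤ R ^ 2 * d b ^ 2 := by
    intro b hb
    have h5 : ∑ v ∈ 𝒱 with A v = b, d v ^ 2 ≤ (∑ v ∈ 𝒱 with A v = b, d v) ^ 2 := by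
      rw [pow_two, Finset.sum_mul]
      refine Finset.sum_le_sum fun v hv => ?_
      rw [pow_two]
      exact Nat.mul_le_mul_left _
        (Finset.single_le_sum (f := fun v => d v) (fun _ _ => Nat.zero_le _) hv)
    calc g ^ 2 * ∑ v ∈ 𝒱 with A v = b, d v ^ 2
        ≤ g ^ 2 * (∑ v ∈ 𝒱 with A v = b, d v) ^ 2 := Nat.mul_le_mul_left _ h5
      _ = (g * ∑ v ∈ 𝒱 with A v = b, d v) ^ 2 := by ring
      _ ≤ (R * d b) ^ 2 := Nat.pow_le_pow_left (hfib b hb) 2
      _ = R ^ 2 * d b ^ 2 := by ring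
  calc g ^ 2 * ∑ v ∈ 𝒱, d v ^ 2
      = ∑ b ∈ Y, g ^ 2 * ∑ v ∈ 𝒱 with A v = b, d v ^ 2 := by
        rw [← Finset.mul_sum, Finset.sum_fiberwise_of_maps_to hAY]
    _ ≤ ∑ b ∈ Y, R ^ 2 * d b ^ 2 := Finset.sum_le_sum hfib2
    _ = R ^ 3 := by rw [← Finset.mul_sum]; ring

end numeric

end Pool.Agent.Lib_MP_13305e
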