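import Pool.Agent.Lib_MP_13305e.Actions
import Pool.Agent.Lib_MP_13305e.Numeric

set_option autoImplicit false

namespace Pool.Agent.Lib_MP_13305e

open Module TensorProduct Coalgebra

/-- `Z` is a constituent of `X ⊗ Y`: there is a non-zero `H`-linear map `X ⊗ Y → Z`, the tensor
product having the `H`-action `tensAct` given by the comultiplication. -/
def Constituent (k H : Type) [Field k] [Ring H] [HopfAlgebra k H]
    (X Y Z : Type) [AddCommGroup X] [Module k X] [Module H X] [IsScalarTower k H X]
    [AddCommGroup Y] [Module k Y] [Module H Y] [IsScalarTower k H Y]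
    [AddCommGroup Z] [Module k Z] [Module H Z] : Prop :=
  ∃ φ : X ⊗[k] Y →ₗ[k] Z, φ ≠ 0 ∧
    ∀ (h : H) (t : X ⊗[k] Y), φ (tensAct (k := k) (H := H) X Y h t) = h • φ t

/-- `V i`, `i : ι`, is a complete list without repetitions of the simple modules over the
ring `H`. -/
def IsCompleteList (H : Type) [Ring H] {ι : Type} (V : ι → Type)
    [∀ i, AddCommGroup (V i)] [∀ i, Module H (V i)] : Prop :=
  (∀ i, IsSimpleModule H (V i)) ∧ (∀ i j, Nonempty (V i ≃ₗ[H] V j) → i = j) ∧
  ∀ (S : Type) [AddCommGroup S] [Module H S], IsSimpleModule H S → ∃ i, Nonempty (V i ≃ₗ[H] S)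

section

variable {k H : Type} [Field k] [IsAlgClosed k] [Ring H] [HopfAlgebra k H]
  [FiniteDimensional k H] [IsSemisimpleRing H]
variable {ι : Type} [Fintype ι] (V : ι → Type) [∀ i, AddCommGroup (V i)] [∀ i, Module k (V i)]
  [∀ i, Module H (V i)] [∀ i, IsScalarTower k H (V i)]

omit [IsAlgClosed k] [IsSemisimpleRing H] [Fintype ι] in
theorem finite_of_list (hV : IsCompleteList H V) (i : ι) : FiniteDimensional k (V i) := by
  haveI := hV.1 i
  haveI : Module.Finite H (V i) := inferInstance
  exact Module.Finite.trans H (V i)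

omit [IsAlgClosed k] [IsSemisimpleRing H] [Fintype ι] in
theorem finrank_pos_of_list (hV : IsCompleteList H V) (i : ι) : 0 < finrank k (V i) := by
  haveI := hV.1 i
  haveI := finite_of_list (k := k) V hV i
  haveI : Nontrivial (V i) := IsSimpleModule.nontrivial H (V i)
  exact Module.finrank_pos

/-- the multiplicity of `V c` in `V w ⊗ V a` -/
noncomputable def mult (w a c : ι) : ℕ :=
  finrank k (RMod (tensAct (k := k) (H := H) (V w) (V a)) →ₗ[H] V c)

omit [IsAlgClosed k] [IsSemisimpleRing H] [Fintype ι] in
theorem mult_eq_zero (hV : IsCompleteList H V) (w a c : ι)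
    (h : ¬ Constituent k H (V w) (V a) (V c)) : mult (k := k) (H := H) V w a c = 0 := by
  haveI := finite_of_list (k := k) V hV w
  haveI := finite_of_list (k := k) V hV a
  haveI := finite_of_list (k := k) V hV c
  have : Subsingleton (RMod (tensAct (k := k) (H := H) (V w) (V a)) →ₗ[H] V c) := by
    refine ⟨fun f g => ?_⟩
    have hz : ∀ f : RMod (tensAct (k := k) (H := H) (V w) (V a)) →ₗ[H] V c, f = 0 := by
      intro f
      by_contra hf
      refine h ⟨(f.restrictScalars k) ∘ₗ
        (requiv (tensAct (H := H) (k := k) (V w) (V a))).symm.toLinearMap, ?_, ?_⟩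
      · intro h0
        apply hf
        refine LinearMap.ext fun x => ?_
        exact LinearMap.congr_fun h0 (requiv (tensAct (H := H) (k := k) (V w) (V a)) x)
      · intro h t
        exact f.map_smul h ((requiv (tensAct (H := H) (k := k) (V w) (V a))).symm t)
    rw [hz f, hz g]
  exact finrank_zero_of_subsingleton

theorem mult_row (hV : IsCompleteList H V) (w a : ι) :
    ∑ c, mult (k := k) (H := H) V w a c * finrank k (V c)
      = finrank k (V w) * finrank k (V a) := by
  haveI := fun i => finite_of_list (k := k) V hV i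
  haveI := hV.1
  have h := sum_finrank_hom_mul' (k := k) (H := H) V
    (M := RMod (tensAct (k := k) (H := H) (V w) (V a))) hV.2.1 (fun S hS => hV.2.2 S hS)
  rw [← Module.finrank_tensorProduct (R := k), ← (requiv (tensAct (k := k) (H := H) (V w) (V a))).finrank_eq,
    ← h]
  rfl

theorem mult_first (hV : IsCompleteList H V) (a c : ι) :
    ∑ w, mult (k := k) (H := H) V w a c * finrank k (V w)
      ≤ finrank k (V a) * finrank k (V c) := by
  haveI := fun i => finite_of_list (k := k) V hV i
  haveI := hV.1
  have h := sum_finrank_hom_mul (k := k) (H := H) V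
    (M := RMod (homAct (k := k) (H := H) (V a) (V c))) hV.2.1 (fun S hS => hV.2.2 S hS)
  rw [(requiv (homAct (k := k) (H := H) (V a) (V c))).finrank_eq, Module.finrank_linearMap] at h
  rw [← h]
  refine Finset.sum_le_sum fun w _ => Nat.mul_le_mul_right _ ?_
  exact LinearMap.finrank_le_finrank_of_injective
    (toHom_injective (k := k) (H := H) (W := V w) (A := V a) (A' := V c))

theorem mult_col (hV : IsCompleteList H V) (w c : ι) :
    ∑ a, mult (k := k) (H := H) V w a c * finrank k (V a)
      ≤ finrank k (V w) * finrank k (V c) := by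
  haveI := fun i => finite_of_list (k := k) V hV i
  haveI := hV.1
  haveI : FiniteDimensional k (RMod (preAct (k := k) (H := H) (V w) k)) := inferInstance
  have h := sum_finrank_hom_mul' (k := k) (H := H) V
    (M := RMod (tensAct (k := k) (H := H) (RMod (preAct (k := k) (H := H) (V w) k)) (V c)))
    hV.2.1 (fun S hS => hV.2.2 S hS)
  rw [(requiv (tensAct (k := k) (H := H) (RMod (preAct (k := k) (H := H) (V w) k))
    (V c))).finrank_eq, Module.finrank_tensorProduct,
    (requiv (preAct (k := k) (H := H) (V w) k)).finrank_eq, Module.finrank_linearMap,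
    Module.finrank_self, mul_one] at h
  rw [← h]
  refine Finset.sum_le_sum fun a _ => Nat.mul_le_mul_right _ ?_
  unfold mult
  rw [← finrank_hom_comm]
  exact LinearMap.finrank_le_finrank_of_injective
    (toDual_injective (k := k) (H := H) (W := V w) (A := V a) (A' := V c))

theorem mult_first_eq (hV : IsCompleteList H V) (a c : ι) :
    ∑ w, mult (k := k) (H := H) V w a c * finrank k (V w)
      = finrank k (V a) * finrank k (V c) :=
  eq_of_le' (d := fun i => finrank k (V i)) (finrank_pos_of_list V hV) (mult (k := k) (H := H) V)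
    (mult_row V hV) (mult_first V hV) a c

theorem mult_col_eq (hV : IsCompleteList H V) (w c : ι) :
    ∑ a, mult (k := k) (H := H) V w a c * finrank k (V a)
      = finrank k (V w) * finrank k (V c) :=
  eq_of_le (d := fun i => finrank k (V i)) (finrank_pos_of_list V hV)
    (mult (k := k) (H := H) V w) (finrank k (V w)) (mult_row V hV w) (mult_col V hV w) c

theorem sum_sq_list (hV : IsCompleteList H V) :
    ∑ i, finrank k (V i) ^ 2 = finrank k H := by
  haveI := fun i => finite_of_list (k := k) V hV i
  haveI := hV.1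
  exact sum_sq_eq V hV.2.1 (fun S hS => hV.2.2 S hS)

/-- the trivial action -/
noncomputable def trivAct (k H : Type) [Field k] [Ring H] [HopfAlgebra k H] :
    H →ₐ[k] Module.End k k :=
  (Algebra.ofId k (Module.End k k)).comp (Bialgebra.counitAlgHom k H)

omit [IsAlgClosed k] [FiniteDimensional k H] [IsSemisimpleRing H] [Fintype ι] in
/-- some member of the list has dimension one -/
theorem exists_finrank_one (hV : IsCompleteList H V) : ∃ i, finrank k (V i) = 1 := by
  have h1 : finrank k (RMod (trivAct k H)) = 1 := by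
    rw [(requiv (trivAct k H)).finrank_eq, finrank_self]
  haveI : IsSimpleModule H (RMod (trivAct k H)) :=
    (isSimpleModule_iff ..).mpr (is_simple_module_of_finrank_eq_one (K := k) (A := H) h1)
  obtain ⟨i, ⟨e⟩⟩ := hV.2.2 (RMod (trivAct k H)) inferInstance
  exact ⟨i, by rw [(e.restrictScalars k).finrank_eq, h1]⟩

/-- **Generation theorem**, first form. -/
theorem generation (hV : IsCompleteList H V) (g : ℕ) (hg : 0 < g) (L : Set ι)
    (hL : L.Nonempty) (hL' : L ≠ Set.univ)
    (h : ∀ w, ¬ g ∣ finrank k (V w) → ∀ a ∈ L, ∀ c,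
      Constituent k H (V w) (V a) (V c) → c ∈ L) :
    g ∣ ∑ w with ¬ g ∣ finrank k (V w), finrank k (V w) ^ 2 := by
  refine dvd_of_split (d := fun i => finrank k (V i)) (N := mult (k := k) (H := H) V) hg
    (finrank_pos_of_list V hV) (mult_row V hV) (mult_first_eq V hV) (mult_col_eq V hV)
    (fun i => i ∈ L) hL ?_ ?_
  · rw [Set.ne_univ_iff_exists_notMem] at hL'
    exact hL'
  · intro a c ha hc
    refine Finset.sum_eq_zero fun w hw => ?_
    rw [Finset.mem_filter] at hw
    rw [mult_eq_zero V hV w a c (fun hcon => hc (h w hw.2 a ha c hcon)), zero_mul]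

open Classical in
/-- **Generation theorem**, all conclusions. -/
theorem generation' (hV : IsCompleteList H V) (g : ℕ) (hg : 0 < g) (L : Set ι)
    (hL : L.Nonempty) (hL' : L ≠ Set.univ)
    (h : ∀ w, ¬ g ∣ finrank k (V w) → ∀ a ∈ L, ∀ c,
      Constituent k H (V w) (V a) (V c) → c ∈ L) :
    g ∣ ∑ w with ¬ g ∣ finrank k (V w), finrank k (V w) ^ 2 ∧
    g ∣ ∑ a with a ∈ L, finrank k (V a) ^ 2 ∧ g ∣ finrank k H := by
  have hR := generation V hV g hg L hL hL' h
  refine ⟨hR, ?_, ?_⟩
  · obtain ⟨i0, hi0⟩ := exists_finrank_one (k := k) V hV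
    refine dvd_sum_L (d := fun i => finrank k (V i)) (N := mult (k := k) (H := H) V) i0 hi0
      (mult_first_eq V hV) (fun a => a ∈ L) ?_ hR
    intro a c ha hc
    refine Finset.sum_eq_zero fun w hw => ?_
    rw [Finset.mem_filter] at hw
    rw [mult_eq_zero V hV w a c (fun hcon => hc (h w hw.2 a ha c hcon)), zero_mul]
  · rw [← sum_sq_list V hV]
    exact dvd_sum_sq (d := fun i => finrank k (V i)) hR

/-- **Two-step theorem.** -/
theorem two_step (hV : IsCompleteList H V) (g : ℕ) (v : ι) (hg : g ∣ finrank k (V v))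
    (h : ∀ a, ¬ g ∣ finrank k (V a) →
      (∀ w, ¬ g ∣ finrank k (V w) → ¬ Constituent k H (V w) (V a) (V v)) ∨
      (∑ w with ¬ g ∣ finrank k (V w), finrank k (V w) ^ 2) * finrank k (V a)
        < g * finrank k (V v)) :
    g ^ 2 ∣ finrank k H * finrank k (V v) := by
  rw [← sum_sq_list V hV]
  refine dvd_of_col_zero (d := fun i => finrank k (V i)) (N := mult (k := k) (H := H) V)
    (mult_first_eq V hV) (mult_col_eq V hV) hg fun a ha => ?_
  rcases h a ha with h1 | h1
  · refine Finset.sum_eq_zero fun w hw => ?_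
    rw [Finset.mem_filter] at hw
    rw [mult_eq_zero V hV w a v (h1 w hw.2), zero_mul]
  · exact E_eq_zero_of_lt (d := fun i => finrank k (V i)) (N := mult (k := k) (H := H) V)
      (mult_row V hV) (mult_first_eq V hV) hg h1

open Classical in
/-- **Quantitative theorem.** -/
theorem small_part (hV : IsCompleteList H V) (g : ℕ) :
    g ^ 2 * ∑ v with g ∣ finrank k (V v) ∧ ¬ g ^ 2 ∣ finrank k H * finrank k (V v),
        finrank k (V v) ^ 2
      ≤ (∑ w with ¬ g ∣ finrank k (V w), finrank k (V w) ^ 2) ^ 3 := by
  have h := sum_sq_bad_le (d := fun i => finrank k (V i)) (g := g)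
    (N := mult (k := k) (H := H) V) (mult_row V hV) (mult_first_eq V hV) (mult_col_eq V hV)
  rw [sum_sq_list V hV] at h
  exact h

end

end Pool.Agent.Lib_MP_13305e
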