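import Pool.Agent.Lib_MP_13305e.Assembly

set_option autoImplicit false

/-!
The bundled form of the statements.
-/

namespace Pool.Agent.Lib_MP_13305e

open Module TensorProduct Coalgebra

/-- `β : X → Y → Z` is a `k`-bilinear map with `∑ β (h₁ x) (h₂ y) = h β(x, y)` for all `h` in the
bialgebra `H`, where `∑ h₁ ⊗ h₂` is the comultiplication of `h`.  This is the same thing as an
`H`-linear map `X ⊗ Y → Z`, `H` acting on `X ⊗ Y` through the comultiplication. -/
structure IsTensorMap (k H : Type) {X Y Z : Type} [Field k] [Ring H] [HopfAlgebra k H]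
    [AddCommGroup X] [Module k X] [Module H X] [AddCommGroup Y] [Module k Y] [Module H Y]
    [AddCommGroup Z] [Module k Z] [Module H Z] (β : X → Y → Z) : Prop where
  add_left : ∀ x x' y, β (x + x') y = β x y + β x' y
  add_right : ∀ x y y', β x (y + y') = β x y + β x y'
  smul_left : ∀ (c : k) x y, β (c • x) y = c • β x y
  smul_right : ∀ (c : k) x y, β x (c • y) = c • β x y
  comul : ∀ (h : H) (s : Finset (H × H)), ∑ i ∈ s, i.1 ⊗ₜ[k] i.2 = comul (R := k) h →
    ∀ x y, ∑ i ∈ s, β (i.1 • x) (i.2 • y) = h • β x y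

/-- A complete list `V i`, `i : ι`, without repetitions, of the simple modules over the
`k`-algebra `H`: `ι` is finite, the `V i` are simple and pairwise non-isomorphic, and every simple
`H`-module is isomorphic to one of them. -/
structure SimpleList (k H : Type) [Field k] [Ring H] [Algebra k H] where
  /-- the index set -/
  ι : Type
  [fin : Fintype ι]
  /-- the modules -/
  V : ι → Type
  [acg : ∀ i, AddCommGroup (V i)]
  [modk : ∀ i, Module k (V i)]
  [modH : ∀ i, Module H (V i)]
  [tower : ∀ i, IsScalarTower k H (V i)]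
  simple : ∀ i, IsSimpleModule H (V i)
  inj : ∀ i j, Nonempty (V i ≃ₗ[H] V j) → i = j
  surj : ∀ (S : Type) [AddCommGroup S] [Module H S], IsSimpleModule H S →
    ∃ i, Nonempty (V i ≃ₗ[H] S)

attribute [instance] SimpleList.fin SimpleList.acg SimpleList.modk SimpleList.modH
  SimpleList.tower

namespace SimpleList

/-- the dimension of the simple module `V i` -/
noncomputable def dim {k H : Type} [Field k] [Ring H] [Algebra k H] (S : SimpleList k H)
    (i : S.ι) : ℕ := finrank k (S.V i)

open Classical in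
/-- the sum of `(dim W)²` over the simple modules `W` with `g ∤ dim W` -/
noncomputable def smallSum {k H : Type} [Field k] [Ring H] [Algebra k H] (S : SimpleList k H)
    (g : ℕ) : ℕ := ∑ w with ¬ g ∣ S.dim w, S.dim w ^ 2

/-- `V c` is a constituent of `V w ⊗ V a`: there is a non-zero `H`-linear map
`V w ⊗ V a → V c` (`H` acting on the tensor product through the comultiplication), given as the
bilinear map `V w × V a → V c`. -/
def Occurs {k H : Type} [Field k] [Ring H] [HopfAlgebra k H] (S : SimpleList k H)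
    (w a c : S.ι) : Prop :=
  ∃ β : S.V w → S.V a → S.V c, β ≠ 0 ∧ IsTensorMap k H β

variable {k H : Type} [Field k] [IsAlgClosed k] [Ring H] [HopfAlgebra k H]
  [FiniteDimensional k H] [IsSemisimpleRing H]

omit [IsAlgClosed k] [FiniteDimensional k H] [IsSemisimpleRing H] in
theorem occurs_of_constituent (S : SimpleList k H) {w a c : S.ι}
    (h : Constituent k H (S.V w) (S.V a) (S.V c)) : S.Occurs w a c := by
  obtain ⟨φ, hφ, hl⟩ := h
  refine ⟨fun x y => φ (x ⊗ₜ[k] y), ?_, ?_⟩
  · intro h0
    apply hφ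
    refine TensorProduct.ext' fun x y => ?_
    exact congrFun (congrFun h0 x) y
  · refine ⟨fun x x' y => ?_, fun x y y' => ?_, fun c x y => ?_, fun c x y => ?_, ?_⟩
    · rw [TensorProduct.add_tmul, map_add]
    · rw [TensorProduct.tmul_add, map_add]
    · rw [← TensorProduct.smul_tmul', map_smul]
    · rw [TensorProduct.tmul_smul, map_smul]
    · intro h s hs x y
      rw [← hl, tensAct_tmul (⟨s, Prod.fst, Prod.snd, hs⟩ : Repr k h (H × H)), map_sum]

omit [IsAlgClosed k] [FiniteDimensional k H] [IsSemisimpleRing H] in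
theorem isCompleteList (S : SimpleList k H) : IsCompleteList H S.V :=
  ⟨S.simple, S.inj, S.surj⟩

open Classical in
theorem two_step (S : SimpleList k H) (g : ℕ) (v : S.ι) (hg : g ∣ S.dim v)
    (h : ∀ a, ¬ g ∣ S.dim a →
      (∀ w, ¬ g ∣ S.dim w → ¬ S.Occurs w a v) ∨ S.smallSum g * S.dim a < g * S.dim v) :
    g ^ 2 ∣ finrank k H * S.dim v :=
  Lib_MP_13305e.two_step S.V S.isCompleteList g v hg (fun a ha => (h a ha).imp_left
    (fun h1 w hw hc => h1 w hw (S.occurs_of_constituent hc)))

open Classical in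
theorem small_part (S : SimpleList k H) (g : ℕ) :
    g ^ 2 * ∑ v with g ∣ S.dim v ∧ ¬ g ^ 2 ∣ finrank k H * S.dim v, S.dim v ^ 2
      ≤ S.smallSum g ^ 3 :=
  Lib_MP_13305e.small_part S.V S.isCompleteList g

open Classical in
theorem generation (S : SimpleList k H) (g : ℕ) (hg : 0 < g) (L : Set S.ι) (hL : L.Nonempty)
    (hL' : L ≠ Set.univ)
    (h : ∀ w, ¬ g ∣ S.dim w → ∀ a ∈ L, ∀ c, S.Occurs w a c → c ∈ L) :
    g ∣ S.smallSum g ∧ g ∣ ∑ a with a ∈ L, S.dim a ^ 2 ∧ g ∣ finrank k H :=
  Lib_MP_13305e.generation' S.V S.isCompleteList g hg L hL hL'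
    (fun w hw a ha c hc => h w hw a ha c (S.occurs_of_constituent hc))

end SimpleList

end Pool.Agent.Lib_MP_13305e
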