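import Mathlib

set_option autoImplicit false

/-!
Modules over a finite-dimensional semisimple algebra `H` over an algebraically closed field `k`:
dimensions of Hom spaces.
-/

namespace Pool.Agent.Lib_MP_13305e

open Module

section homspaces

variable {k H : Type*} [Field k] [Ring H] [Algebra k H]
variable {M M' N : Type*} [AddCommGroup M] [Module k M] [Module H M] [IsScalarTower k H M]
  [AddCommGroup M'] [Module k M'] [Module H M'] [IsScalarTower k H M']
  [AddCommGroup N] [Module k N] [Module H N] [IsScalarTower k H N]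

instance finite_hom [FiniteDimensional k M] [FiniteDimensional k N] :
    FiniteDimensional k (M →ₗ[H] N) :=
  Module.Finite.of_injective (LinearMap.restrictScalarsₗ k H M N k)
    (LinearMap.restrictScalars_injective _)

/-- precomposition with an isomorphism -/
def precompEquiv (e : M ≃ₗ[H] M') : (M' →ₗ[H] N) ≃ₗ[k] (M →ₗ[H] N) where
  toFun f := f ∘ₗ e.toLinearMap
  invFun f := f ∘ₗ e.symm.toLinearMap
  map_add' _ _ := rfl
  map_smul' _ _ := rfl
  left_inv _ := by ext; simp
  right_inv _ := by ext; simp

/-- postcomposition with an isomorphism -/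
def postcompEquiv (e : M ≃ₗ[H] M') : (N →ₗ[H] M) ≃ₗ[k] (N →ₗ[H] M') where
  toFun f := e.toLinearMap ∘ₗ f
  invFun f := e.symm.toLinearMap ∘ₗ f
  map_add' f g := by ext; simp
  map_smul' c f := by
    ext x
    simp only [LinearMap.comp_apply, LinearMap.smul_apply, LinearEquiv.coe_coe, RingHom.id_apply]
    exact LinearMap.map_smul_of_tower e.toLinearMap c (f x)
  left_inv _ := by ext; simp
  right_inv _ := by ext; simp

open Classical in
/-- Schur's lemma, counting form. -/
theorem finrank_hom_simple [IsAlgClosed k] [FiniteDimensional k M] [FiniteDimensional k N]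
    [IsSimpleModule H M] [IsSimpleModule H N] :
    finrank k (M →ₗ[H] N) = if Nonempty (M ≃ₗ[H] N) then 1 else 0 := by
  split_ifs with h
  · obtain ⟨e⟩ := h
    rw [← (postcompEquiv (k := k) (N := M) e).finrank_eq]
    have hb := IsSimpleModule.algebraMap_end_bijective_of_isAlgClosed (A := H) (V := M) k
    have e2 : k ≃ₗ[k] (M →ₗ[H] M) :=
      LinearEquiv.ofBijective (Algebra.linearMap k (Module.End H M)) hb
    rw [← e2.finrank_eq, finrank_self]
  · have : Subsingleton (M →ₗ[H] N) := by
      refine ⟨fun f g => ?_⟩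
      have hz : ∀ f : M →ₗ[H] N, f = 0 := by
        intro f
        rcases f.bijective_or_eq_zero with hb | h0
        · exact absurd ⟨LinearEquiv.ofBijective f hb⟩ h
        · exact h0
      rw [hz f, hz g]
    exact finrank_zero_of_subsingleton

/-- decomposition of a finite-dimensional module into simple ones -/
theorem exists_pi_simple (k : Type*) {H M : Type*} [Field k] [Ring H] [Algebra k H]
    [AddCommGroup M] [Module k M] [Module H M] [IsScalarTower k H M]
    [IsSemisimpleRing H] [FiniteDimensional k M] :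
    ∃ (n : ℕ) (S : Fin n → Submodule H M) (_ : M ≃ₗ[H] Π i : Fin n, S i),
      ∀ i, IsSimpleModule H (S i) := by
  haveI : Module.Finite H M := Module.Finite.of_restrictScalars_finite k H M
  obtain ⟨n, S, e, h⟩ := IsSemisimpleModule.exists_linearEquiv_fin_dfinsupp H M
  exact ⟨n, S, e.trans (DFinsupp.linearEquivFunOnFintype), h⟩

end homspaces

section family

variable {k H : Type*} [Field k] [IsAlgClosed k] [Ring H] [Algebra k H] [IsSemisimpleRing H]

theorem finrank_hom_eq_sum {M V : Type*} [AddCommGroup M] [Module k M] [Module H M]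
    [IsScalarTower k H M] [FiniteDimensional k M] [AddCommGroup V] [Module k V] [Module H V]
    [IsScalarTower k H V] [FiniteDimensional k V] [IsSimpleModule H V]
    {n : ℕ} (S : Fin n → Submodule H M) (e : M ≃ₗ[H] Π i : Fin n, S i)
    (hS : ∀ i, IsSimpleModule H (S i)) :
    finrank k (V →ₗ[H] M) = ∑ j, finrank k (V →ₗ[H] S j) ∧
    finrank k (M →ₗ[H] V) = ∑ j, finrank k (S j →ₗ[H] V) := by
  classical
  haveI : ∀ j, FiniteDimensional k (S j) := fun j =>
    Module.Finite.of_injective ((S j).subtype.restrictScalars k)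
      (by exact (S j).subtype_injective)
  constructor
  · rw [(postcompEquiv (k := k) (N := V) e).finrank_eq,
      ← (LinearEquiv.linearMapPi (R := H) (M₂ := V) (φ := fun j => S j) k).finrank_eq,
      Module.finrank_pi_fintype]
  · rw [← (precompEquiv (k := k) (N := V) e).finrank_eq,
      ← (LinearMap.lsum H (fun j => S j) k (M := V)).finrank_eq,
      Module.finrank_pi_fintype]

/-- `dim Hom(V, M) = dim Hom(M, V)` for `V` simple. -/
theorem finrank_hom_comm {M V : Type*} [AddCommGroup M] [Module k M] [Module H M]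
    [IsScalarTower k H M] [FiniteDimensional k M] [AddCommGroup V] [Module k V] [Module H V]
    [IsScalarTower k H V] [FiniteDimensional k V] [IsSimpleModule H V] :
    finrank k (V →ₗ[H] M) = finrank k (M →ₗ[H] V) := by
  classical
  obtain ⟨n, S, e, hS⟩ := exists_pi_simple k (H := H) (M := M)
  haveI : ∀ j, FiniteDimensional k (S j) := fun j =>
    Module.Finite.of_injective ((S j).subtype.restrictScalars k)
      (by exact (S j).subtype_injective)
  obtain ⟨h1, h2⟩ := finrank_hom_eq_sum (k := k) (V := V) S e hS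
  rw [h1, h2]
  refine Finset.sum_congr rfl fun j _ => ?_
  rw [finrank_hom_simple, finrank_hom_simple]
  have : Nonempty (V ≃ₗ[H] S j) ↔ Nonempty (S j ≃ₗ[H] V) :=
    ⟨fun ⟨e⟩ => ⟨e.symm⟩, fun ⟨e⟩ => ⟨e.symm⟩⟩
  simp only [this]

variable {ι : Type*} [Fintype ι] (V : ι → Type*) [∀ i, AddCommGroup (V i)] [∀ i, Module k (V i)]
  [∀ i, Module H (V i)] [∀ i, IsScalarTower k H (V i)] [∀ i, FiniteDimensional k (V i)]
  [∀ i, IsSimpleModule H (V i)]

/-- `∑ dim Hom(V i, M) * dim (V i) = dim M`, for submodules `S j` isomorphic to members of the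
family. -/
theorem sum_finrank_hom_mul {M : Type*} [AddCommGroup M] [Module k M] [Module H M]
    [IsScalarTower k H M] [FiniteDimensional k M]
    (hne : ∀ i j, Nonempty (V i ≃ₗ[H] V j) → i = j)
    (hall : ∀ S : Submodule H M, IsSimpleModule H S → ∃ i, Nonempty (V i ≃ₗ[H] S)) :
    ∑ i, finrank k (V i →ₗ[H] M) * finrank k (V i) = finrank k M := by
  classical
  obtain ⟨n, S, e, hS⟩ := exists_pi_simple k (H := H) (M := M)
  haveI : ∀ j, FiniteDimensional k (S j) := fun j =>
    Module.Finite.of_injective ((S j).subtype.restrictScalars k)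
      (by exact (S j).subtype_injective)
  have h1 : ∀ i, finrank k (V i →ₗ[H] M) * finrank k (V i)
      = ∑ j, if Nonempty (V i ≃ₗ[H] S j) then finrank k (S j) else 0 := by
    intro i
    rw [(finrank_hom_eq_sum (k := k) (V := V i) S e hS).1, Finset.sum_mul]
    refine Finset.sum_congr rfl fun j _ => ?_
    rw [finrank_hom_simple]
    split_ifs with h
    · obtain ⟨e'⟩ := h
      rw [one_mul, (e'.restrictScalars k).finrank_eq]
    · rw [zero_mul]
  simp_rw [h1]
  rw [Finset.sum_comm]
  have h2 : ∀ j, (∑ i, if Nonempty (V i ≃ₗ[H] S j) then finrank k (S j) else 0)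
      = finrank k (S j) := by
    intro j
    obtain ⟨i, hi⟩ := hall (S j) (hS j)
    rw [Finset.sum_eq_single i]
    · rw [if_pos hi]
    · intro i' _ hii'
      rw [if_neg]
      rintro ⟨e'⟩
      obtain ⟨e''⟩ := hi
      exact hii' (hne _ _ ⟨e'.trans e''.symm⟩)
    · intro h; exact absurd (Finset.mem_univ i) h
  simp_rw [h2]
  rw [(e.restrictScalars k).finrank_eq, Module.finrank_pi_fintype]

/-- The same with `Hom(M, V i)`. -/
theorem sum_finrank_hom_mul' {M : Type*} [AddCommGroup M] [Module k M] [Module H M]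
    [IsScalarTower k H M] [FiniteDimensional k M]
    (hne : ∀ i j, Nonempty (V i ≃ₗ[H] V j) → i = j)
    (hall : ∀ S : Submodule H M, IsSimpleModule H S → ∃ i, Nonempty (V i ≃ₗ[H] S)) :
    ∑ i, finrank k (M →ₗ[H] V i) * finrank k (V i) = finrank k M := by
  rw [← sum_finrank_hom_mul (k := k) V hne hall]
  refine Finset.sum_congr rfl fun i _ => ?_
  rw [← finrank_hom_comm (M := M) (V := V i)]

/-- `∑ (dim V i)² = dim H`. -/
theorem sum_sq_eq [FiniteDimensional k H]
    (hne : ∀ i j, Nonempty (V i ≃ₗ[H] V j) → i = j)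
    (hall : ∀ S : Submodule H H, IsSimpleModule H S → ∃ i, Nonempty (V i ≃ₗ[H] S)) :
    ∑ i, finrank k (V i) ^ 2 = finrank k H := by
  rw [← sum_finrank_hom_mul' (k := k) V hne hall]
  refine Finset.sum_congr rfl fun i _ => ?_
  have e : (H →ₗ[H] V i) ≃ₗ[k] V i :=
    { toFun := fun f => f 1
      invFun := fun v => LinearMap.toSpanSingleton H (V i) v
      map_add' := fun _ _ => rfl
      map_smul' := fun _ _ => rfl
      left_inv := fun f => by ext; simp
      right_inv := fun v => by simp }
  rw [e.finrank_eq, pow_two]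

end family

end Pool.Agent.Lib_MP_13305e
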